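import Pool.Agent.Lib.MP_64f491_lc.Final

/-! # One-Sided k-Biclique in time O(n^(k-2)) on a deterministic Turing machine -/

namespace Pool.Agent.Results.MP_64f491_lc.OneSidedBicliqueFaster

open Pool.Agent.Lib.MP_64f491_lc

/-- For every `k ≥ 1000`, One-Sided `k`-Biclique is solved in time `O(n^(k-2))` by a deterministic
Turing machine. Hence it has no `n^(k-o(1))` lower bound. -/
theorem result (k : ℕ) (hk : 1000 ≤ k) :
    ∃ C : ℕ, SolvedWithin k fun n => C * n ^ (k - 2) + C :=
  faster k hk

end Pool.Agent.Results.MP_64f491_lc.OneSidedBicliqueFaster
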